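import Pool.Agent.H539R3.SCC.Neg

/-!
# Completeness with respect to chains
-/

set_option autoImplicit false

namespace Pool.Agent.H539R3.SC

open MTLAlgebra

/-- Theories: sets of formulas containing all theorems and closed under modus ponens. -/
structure IsTheory (L : Logic) (T : Set Fm) : Prop where
  prov : ∀ {φ : Fm}, Prov L φ → φ ∈ T
  mp : ∀ {φ ψ : Fm}, φ.imp ψ ∈ T → φ ∈ T → ψ ∈ T

namespace IsTheory

variable {L : Logic} {T : Set Fm} (hT : IsTheory L T)

include hT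

theorem trans {φ ψ χ : Fm} (h1 : φ.imp ψ ∈ T) (h2 : ψ.imp χ ∈ T) : φ.imp χ ∈ T :=
  hT.mp (hT.mp (hT.prov (.a1 φ ψ χ)) h1) h2

theorem curry {φ ψ χ : Fm} (h : (φ.conj ψ).imp χ ∈ T) : φ.imp (ψ.imp χ) ∈ T :=
  hT.mp (hT.prov (.a7b φ ψ χ)) h

theorem uncurry {φ ψ χ : Fm} (h : φ.imp (ψ.imp χ) ∈ T) : (φ.conj ψ).imp χ ∈ T :=
  hT.mp (hT.prov (.a7a φ ψ χ)) h

theorem weak (φ ψ : Fm) : φ.imp (ψ.imp φ) ∈ T := hT.curry (hT.prov (.a2 φ ψ))

theorem exch {φ ψ χ : Fm} (h : φ.imp (ψ.imp χ) ∈ T) : ψ.imp (φ.imp χ) ∈ T :=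
  hT.curry (hT.trans (hT.prov (.a3 ψ φ)) (hT.uncurry h))

theorem id (φ : Fm) : φ.imp φ ∈ T :=
  hT.mp (hT.exch (hT.weak φ (φ.imp (φ.imp φ)))) (hT.weak φ φ)

theorem conj_left {φ ψ : Fm} (χ : Fm) (h : φ.imp ψ ∈ T) : (φ.conj χ).imp (ψ.conj χ) ∈ T :=
  hT.uncurry (hT.trans h (hT.curry (hT.id _)))

theorem conj_mono {φ ψ φ' ψ' : Fm} (h : φ.imp φ' ∈ T) (h' : ψ.imp ψ' ∈ T) :
    (φ.conj ψ).imp (φ'.conj ψ') ∈ T :=
  hT.trans (hT.conj_left ψ h) (hT.trans (hT.prov (.a3 φ' ψ))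
    (hT.trans (hT.conj_left φ' h') (hT.prov (.a3 ψ' φ'))))

theorem assoc1 (φ ψ χ : Fm) : ((φ.conj ψ).conj χ).imp (φ.conj (ψ.conj χ)) ∈ T :=
  hT.uncurry (hT.uncurry (hT.trans (hT.curry (hT.id _)) (hT.prov (.a7b ψ χ _))))

theorem assoc2 (φ ψ χ : Fm) : (φ.conj (ψ.conj χ)).imp ((φ.conj ψ).conj χ) ∈ T :=
  hT.uncurry (hT.trans (hT.curry (hT.curry (hT.id _))) (hT.prov (.a7a ψ χ _)))

theorem imp_mono {φ ψ φ' ψ' : Fm} (h : φ'.imp φ ∈ T) (h' : ψ.imp ψ' ∈ T) :
    (φ.imp ψ).imp (φ'.imp ψ') ∈ T :=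
  hT.trans (hT.mp (hT.prov (.a1 φ' φ ψ)) h) (hT.mp (hT.exch (hT.prov (.a1 φ' ψ ψ'))) h')

theorem top_mem : Fm.bot.imp Fm.bot ∈ T := hT.id _

theorem pow_add (b : Fm) (n m : ℕ) :
    (b.pow (n + m)).imp ((b.pow n).conj (b.pow m)) ∈ T := by
  induction m with
  | zero =>
    -- b^n → b^n & 1
    exact hT.mp (hT.exch (hT.curry (hT.id _))) hT.top_mem
  | succ m ih =>
    -- b^(n+m) & b → (b^n & b^m) & b → b^n & (b^m & b)
    exact hT.trans (hT.conj_left b ih) (hT.assoc1 _ _ _)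

theorem pow_one_imp {b χ : Fm} (h : (b.pow 1).imp χ ∈ T) : b.imp χ ∈ T := by
  refine hT.trans ?_ h
  exact hT.mp (hT.curry (hT.id _)) hT.top_mem

/-- Prelinearity for powers. -/
theorem prelin_pow (α β : Fm) : ∀ n m : ℕ, ∀ χ : Fm, ((α.imp β).pow n).imp χ ∈ T →
    ((β.imp α).pow m).imp χ ∈ T → χ ∈ T := by
  have h11 : ∀ χ : Fm, (α.imp β).imp χ ∈ T → (β.imp α).imp χ ∈ T → χ ∈ T := fun χ h h' =>
    hT.mp (hT.mp (hT.prov (.a8 α β χ)) h) h'
  have h1m : ∀ m : ℕ, ∀ χ : Fm, (α.imp β).imp χ ∈ T → ((β.imp α).pow m).imp χ ∈ T → χ ∈ T := by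
    intro m
    induction m with
    | zero => intro χ _ h; exact hT.mp h hT.top_mem
    | succ m ih =>
      intro χ h h'
      have k : ((β.imp α).pow m).imp ((β.imp α).imp χ) ∈ T := hT.curry h'
      have k' : (α.imp β).imp ((β.imp α).imp χ) ∈ T := hT.trans h (hT.weak _ _)
      exact h11 χ h (ih _ k' k)
  intro n
  induction n with
  | zero => intro m χ h _; exact hT.mp h hT.top_mem
  | succ n ih =>
    intro m χ h h'
    have k : ((α.imp β).pow n).imp ((α.imp β).imp χ) ∈ T := hT.curry h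
    have k' : ((β.imp α).pow m).imp ((α.imp β).imp χ) ∈ T := hT.trans h' (hT.weak _ _)
    exact h1m m χ (ih m _ k k') h'

end IsTheory

/-- A theory is linear if it decides the order of all pairs of formulas. -/
def Linear (T : Set Fm) : Prop := ∀ φ ψ : Fm, φ.imp ψ ∈ T ∨ ψ.imp φ ∈ T

/-- A formula which is not a theorem is missing in some linear theory. -/
theorem exists_linear {L : Logic} {φ : Fm} (h : ¬ Prov L φ) :
    ∃ T : Set Fm, IsTheory L T ∧ Linear T ∧ φ ∉ T := by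
  have h0 : {ψ : Fm | Prov L ψ} ∈ {T : Set Fm | IsTheory L T ∧ φ ∉ T} :=
    ⟨⟨fun h => h, fun h h' => Prov.mp h h'⟩, h⟩
  obtain ⟨T, _, hmax⟩ := zorn_subset_nonempty {T : Set Fm | IsTheory L T ∧ φ ∉ T} (by
    intro c hc hchain hne
    refine ⟨⋃₀ c, ⟨⟨?_, ?_⟩, ?_⟩, fun s hs => Set.subset_sUnion_of_mem hs⟩
    · intro ψ hψ
      obtain ⟨S, hS⟩ := hne
      exact ⟨S, hS, (hc hS).1.prov hψ⟩
    · rintro ψ χ ⟨S, hS, h1⟩ ⟨S', hS', h2⟩
      rcases hchain.total hS hS' with hle | hle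
      · exact ⟨S', hS', (hc hS').1.mp (hle h1) h2⟩
      · exact ⟨S, hS, (hc hS).1.mp h1 (hle h2)⟩
    · rintro ⟨S, hS, h1⟩
      exact (hc hS).2 h1) _ h0
  obtain ⟨⟨hT, hφ⟩, hmax⟩ := hmax
  refine ⟨T, hT, ?_, hφ⟩
  have gen : ∀ b : Fm, b ∉ T → ∃ n : ℕ, (b.pow n).imp φ ∈ T := by
    intro b hb
    by_contra hcon
    push Not at hcon
    set T' : Set Fm := {ψ | ∃ n : ℕ, (b.pow n).imp ψ ∈ T} with hT'
    have hsub : T ⊆ T' := fun ψ hψ => ⟨0, hT.mp (hT.weak _ _) hψ⟩
    have hT'2 : IsTheory L T' := by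
      refine ⟨fun h => hsub (hT.prov h), ?_⟩
      rintro ψ χ ⟨n, hn⟩ ⟨m, hm⟩
      refine ⟨n + m, hT.trans (hT.pow_add b n m) ?_⟩
      exact hT.trans (hT.conj_mono hn hm) (hT.uncurry (hT.id _))
    have hmem : T' ∈ {T : Set Fm | IsTheory L T ∧ φ ∉ T} := by
      refine ⟨hT'2, ?_⟩
      rintro ⟨n, hn⟩
      exact hcon n hn
    have hbT' : b ∈ T' := ⟨1, hT.uncurry (hT.mp (hT.weak _ _) (hT.id _))⟩
    exact hb (hmax hmem hsub hbT')
  intro α β
  by_contra hcon
  push Not at hcon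
  obtain ⟨n, hn⟩ := gen _ hcon.1
  obtain ⟨m, hm⟩ := gen _ hcon.2
  exact hφ (hT.prelin_pow α β n m φ hn hm)

/-! ## The Lindenbaum chain of a linear theory -/

section Lind

variable {L : Logic} {T : Set Fm} (hT : IsTheory L T)

/-- Equivalence of formulas with respect to a theory. -/
def lsetoid : Setoid Fm where
  r φ ψ := φ.imp ψ ∈ T ∧ ψ.imp φ ∈ T
  iseqv := ⟨fun φ => ⟨hT.id φ, hT.id φ⟩, fun h => ⟨h.2, h.1⟩,
    fun h h' => ⟨hT.trans h.1 h'.1, hT.trans h'.2 h.2⟩⟩

/-- The set of classes of formulas with respect to a theory. -/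
def Lind : Type := Quotient (lsetoid hT)

/-- The class of a formula. -/
def mkL (φ : Fm) : Lind hT := Quotient.mk (lsetoid hT) φ

variable {hT}

theorem mkL_ind {p : Lind hT → Prop} (h : ∀ φ, p (mkL hT φ)) (x : Lind hT) : p x :=
  Quotient.inductionOn x h

/-- The order of the Lindenbaum algebra. -/
def leL : Lind hT → Lind hT → Prop :=
  Quotient.lift₂ (fun φ ψ => φ.imp ψ ∈ T) (by
    intro φ ψ φ' ψ' h h'
    refine propext ⟨fun k => ?_, fun k => ?_⟩
    · exact hT.trans h.2 (hT.trans k h'.1)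
    · exact hT.trans h.1 (hT.trans k h'.2))

theorem leL_mk {φ ψ : Fm} : leL (mkL hT φ) (mkL hT ψ) ↔ φ.imp ψ ∈ T := Iff.rfl

theorem mkL_eq {φ ψ : Fm} (h : φ.imp ψ ∈ T) (h' : ψ.imp φ ∈ T) : mkL hT φ = mkL hT ψ :=
  Quotient.sound ⟨h, h'⟩

variable (hl : Linear T)

open Classical in
/-- The linear order of the Lindenbaum algebra of a linear theory. -/
@[reducible] noncomputable def lindOrder : LinearOrder (Lind hT) where
  le := leL
  le_refl x := by induction x using mkL_ind with | h φ => exact hT.id φ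
  le_trans x y z := by
    induction x using mkL_ind with | h φ => ?_
    induction y using mkL_ind with | h ψ => ?_
    induction z using mkL_ind with | h χ => ?_
    exact fun h h' => hT.trans h h'
  le_antisymm x y := by
    induction x using mkL_ind with | h φ => ?_
    induction y using mkL_ind with | h ψ => ?_
    exact fun h h' => mkL_eq h h'
  le_total x y := by
    induction x using mkL_ind with | h φ => ?_
    induction y using mkL_ind with | h ψ => ?_
    exact hl φ ψ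
  toDecidableLE := Classical.decRel _

/-- The Lindenbaum algebra of a linear theory, a chain. -/
@[reducible] noncomputable def lindBdd :
    letI := lindOrder (hT := hT) hl
    BoundedOrder (Lind hT) :=
  letI := lindOrder (hT := hT) hl
  { top := mkL hT (Fm.bot.imp Fm.bot)
    le_top := fun x => by
      induction x using mkL_ind with | h φ => ?_
      exact hT.mp (hT.weak _ _) hT.top_mem
    bot := mkL hT Fm.bot
    bot_le := fun x => by
      induction x using mkL_ind with | h φ => ?_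
      exact hT.prov (.a9 φ) }

/-- The Lindenbaum algebra of a linear theory, a chain. -/
@[reducible] noncomputable def lindMon : CommMonoid (Lind hT) where
  mul := Quotient.map₂ Fm.conj (fun _ _ h _ _ h' =>
    ⟨hT.conj_mono h.1 h'.1, hT.conj_mono h.2 h'.2⟩)
  one := mkL hT (Fm.bot.imp Fm.bot)
  mul_assoc := fun x y z => by
    induction x using mkL_ind with | h φ => ?_
    induction y using mkL_ind with | h ψ => ?_
    induction z using mkL_ind with | h χ => ?_
    exact mkL_eq (hT.assoc1 _ _ _) (hT.assoc2 _ _ _)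
  mul_comm := fun x y => by
    induction x using mkL_ind with | h φ => ?_
    induction y using mkL_ind with | h ψ => ?_
    exact mkL_eq (hT.prov (.a3 _ _)) (hT.prov (.a3 _ _))
  one_mul := fun x => by
    induction x using mkL_ind with | h φ => ?_
    exact mkL_eq (hT.trans (hT.prov (.a3 _ _)) (hT.prov (.a2 _ _)))
      (hT.mp (hT.curry (hT.id _)) hT.top_mem)
  mul_one := fun x => by
    induction x using mkL_ind with | h φ => ?_
    exact mkL_eq (hT.prov (.a2 _ _)) (hT.mp (hT.exch (hT.curry (hT.id _))) hT.top_mem)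

/-- The Lindenbaum algebra of a linear theory, a chain. -/
@[reducible] noncomputable def lindAlg : MTLAlgebra (Lind hT) :=
  letI := lindOrder (hT := hT) hl
  letI := lindBdd (hT := hT) hl
  letI := lindMon (hT := hT)
  MTLAlgebra.ofChain (Lind hT)
    (Quotient.map₂ Fm.imp (fun _ _ h _ _ h' =>
      ⟨hT.imp_mono h.2 h'.1, hT.imp_mono h.1 h'.2⟩))
    (fun x y z => by
      induction x using mkL_ind with | h φ => ?_
      induction y using mkL_ind with | h ψ => ?_
      induction z using mkL_ind with | h χ => ?_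
      exact ⟨fun h => hT.curry h, fun h => hT.uncurry h⟩) rfl

theorem lind_le {φ ψ : Fm} :
    let := lindAlg (hT := hT) hl
    mkL hT φ ≤ mkL hT ψ ↔ φ.imp ψ ∈ T := Iff.rfl

theorem lind_inf {φ ψ : Fm} :
    let := lindAlg (hT := hT) hl
    mkL hT φ ⊓ mkL hT ψ = mkL hT (φ.and ψ) := by
  let := lindAlg (hT := hT) hl
  have h1 : (φ.and ψ).imp φ ∈ T := hT.prov (.a4 _ _)
  have h2 : (φ.and ψ).imp ψ ∈ T := hT.trans (hT.prov (.a5 _ _)) (hT.prov (.a4 _ _))
  have key : ∀ {α β : Fm}, α.imp β ∈ T → α.imp (α.and β) ∈ T := by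
    intro α β h
    refine hT.trans ?_ (hT.prov (.a6 α β))
    exact hT.mp (hT.exch (hT.curry (hT.id _))) h
  refine le_antisymm ?_ (le_inf ((lind_le hl).2 h1) ((lind_le hl).2 h2))
  rcases hl φ ψ with h | h
  · exact inf_le_left.trans ((lind_le hl).2 (key h))
  · exact inf_le_right.trans ((lind_le hl).2 (hT.trans (key h) (hT.prov (.a5 _ _))))

theorem lind_eval (φ : Fm) :
    let := lindAlg (hT := hT) hl
    eval (fun n => mkL hT (.var n)) φ = mkL hT φ := by
  let := lindAlg (hT := hT) hl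
  induction φ with
  | var n => rfl
  | bot => rfl
  | and φ ψ ih1 ih2 => simp only [eval, ih1, ih2]; exact lind_inf hl
  | conj φ ψ ih1 ih2 => simp only [eval, ih1, ih2]; rfl
  | imp φ ψ ih1 ih2 => simp only [eval, ih1, ih2]; rfl

theorem lind_one {φ : Fm} :
    let := lindAlg (hT := hT) hl
    mkL hT φ = 1 ↔ φ ∈ T := by
  let := lindAlg (hT := hT) hl
  constructor
  · intro h
    have h1 : (1 : Lind hT) ≤ mkL hT φ := h.ge
    exact hT.mp ((lind_le hl).1 h1) hT.top_mem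
  · intro h
    exact mkL_eq (hT.mp (hT.weak _ _) hT.top_mem) (hT.mp (hT.weak _ _) h)

theorem lind_isAlg : @IsAlg L (Lind hT) (lindAlg hl) := by
  cases L with
  | MTL => trivial
  | IMTL =>
    let := lindAlg (hT := hT) hl
    intro (x : Lind hT)
    induction x using mkL_ind with | h φ => ?_
    exact mkL_eq (hT.prov (.extra (.inv φ))) (hT.exch (hT.id _))
  | PiMTL =>
    let := lindAlg (hT := hT) hl
    refine ⟨fun x y z => ?_, fun x => ?_⟩
    · induction x using mkL_ind with | h φ => ?_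
      induction y using mkL_ind with | h ψ => ?_
      induction z using mkL_ind with | h χ => ?_
      exact (lind_one hl).2 (hT.prov (.extra (.canc φ ψ χ)))
    · induction x using mkL_ind with | h φ => ?_
      have : ng (mkL hT φ) = mkL hT φ.neg := rfl
      rw [this, lind_inf hl]
      exact (lind_one hl).2 (hT.prov (.extra (.pc φ)))

end Lind

/-- Completeness with respect to chains. -/
theorem complete {L : Logic} {φ : Fm} (h : ¬ Prov L φ) :
    ∃ (A : Type) (_ : MTLAlgebra A), (∀ x y : A, x ≤ y ∨ y ≤ x) ∧ IsAlg L A ∧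
      ∃ v : ℕ → A, eval v φ ≠ 1 := by
  obtain ⟨T, hT, hl, hφ⟩ := exists_linear h
  refine ⟨Lind hT, lindAlg hl, (lindOrder hl).le_total, lind_isAlg hl,
    fun n => mkL hT (.var n), ?_⟩
  rw [lind_eval hl]
  exact fun h => hφ ((lind_one hl).1 h)

end Pool.Agent.H539R3.SC
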