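import Mathlib

/-!
# Single chain completeness: definitions

Formulas, the Hilbert calculi of MTL, IMTL and ΠMTL (Esteva and Godo), MTL-algebras, and the
single chain completeness property (SCC).
-/

set_option autoImplicit false

namespace Pool.Agent.H539R3.SC

universe u

/-- Propositional formulas over the variables `var 0, var 1, …`, built with falsum, the lattice
conjunction `and`, the strong conjunction `conj` and the implication `imp`. (In these logics the
disjunction is the abbreviation `((φ → ψ) → ψ) ∧ ((ψ → φ) → φ)`, and truth is `⊥ → ⊥`.) -/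
inductive Fm : Type
  | var : ℕ → Fm
  | bot : Fm
  | and : Fm → Fm → Fm
  | conj : Fm → Fm → Fm
  | imp : Fm → Fm → Fm

/-- Negation `¬φ = φ → ⊥`. -/
def Fm.neg (φ : Fm) : Fm := φ.imp Fm.bot

/-- The three logics of the question. -/
inductive Logic : Type
  | MTL
  | IMTL
  | PiMTL

/-- The additional schemes by which the three logics extend MTL: none for MTL, `¬¬φ → φ` for IMTL,
and `¬¬χ → ((φ & χ → ψ & χ) → (φ → ψ))` and `φ ∧ ¬φ → ⊥` for ΠMTL. -/
inductive Extra : Logic → Fm → Prop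
  | inv (φ : Fm) : Extra .IMTL (φ.neg.neg.imp φ)
  | canc (φ ψ χ : Fm) :
      Extra .PiMTL (χ.neg.neg.imp (((φ.conj χ).imp (ψ.conj χ)).imp (φ.imp ψ)))
  | pc (φ : Fm) : Extra .PiMTL ((φ.and φ.neg).imp .bot)

/-- `Prov L φ`: the formula `φ` is a theorem of the logic `L`. This is the Hilbert calculus for MTL
of Esteva and Godo, extended by the additional schemes of `L`. -/
inductive Prov (L : Logic) : Fm → Prop
  | a1 (φ ψ χ : Fm) : Prov L ((φ.imp ψ).imp ((ψ.imp χ).imp (φ.imp χ)))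
  | a2 (φ ψ : Fm) : Prov L ((φ.conj ψ).imp φ)
  | a3 (φ ψ : Fm) : Prov L ((φ.conj ψ).imp (ψ.conj φ))
  | a4 (φ ψ : Fm) : Prov L ((φ.and ψ).imp φ)
  | a5 (φ ψ : Fm) : Prov L ((φ.and ψ).imp (ψ.and φ))
  | a6 (φ ψ : Fm) : Prov L ((φ.conj (φ.imp ψ)).imp (φ.and ψ))
  | a7a (φ ψ χ : Fm) : Prov L ((φ.imp (ψ.imp χ)).imp ((φ.conj ψ).imp χ))
  | a7b (φ ψ χ : Fm) : Prov L (((φ.conj ψ).imp χ).imp (φ.imp (ψ.imp χ)))
  | a8 (φ ψ χ : Fm) : Prov L (((φ.imp ψ).imp χ).imp (((ψ.imp φ).imp χ).imp χ))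
  | a9 (φ : Fm) : Prov L (Fm.bot.imp φ)
  | extra {φ : Fm} : Extra L φ → Prov L φ
  | mp {φ ψ : Fm} : Prov L (φ.imp ψ) → Prov L φ → Prov L ψ

/-- MTL-algebras: bounded integral commutative residuated lattices satisfying prelinearity. -/
class MTLAlgebra (A : Type u) extends Lattice A, BoundedOrder A, CommMonoid A where
  /-- the residuum `x → y` -/
  res : A → A → A
  le_res_iff : ∀ x y z : A, z * x ≤ y ↔ z ≤ res x y
  one_eq_top : (1 : A) = ⊤
  prelin : ∀ x y : A, res x y ⊔ res y x = 1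

/-- The negation `¬x = x → 0` of an MTL-algebra. -/
def ng {A : Type u} [MTLAlgebra A] (x : A) : A := MTLAlgebra.res x ⊥

/-- The MTL-algebra `A` is an `L`-algebra. -/
def IsAlg (L : Logic) (A : Type u) [MTLAlgebra A] : Prop :=
  match L with
  | .MTL => True
  | .IMTL => ∀ x : A, ng (ng x) = x
  | .PiMTL =>
      (∀ x y z : A, MTLAlgebra.res (ng (ng z)) (MTLAlgebra.res
        (MTLAlgebra.res (x * z) (y * z)) (MTLAlgebra.res x y)) = 1) ∧
      ∀ x : A, MTLAlgebra.res (x ⊓ ng x) ⊥ = 1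

/-- The value of a formula under the valuation `v`. -/
def eval {A : Type u} [MTLAlgebra A] (v : ℕ → A) : Fm → A
  | .var n => v n
  | .bot => ⊥
  | .and φ ψ => eval v φ ⊓ eval v ψ
  | .conj φ ψ => eval v φ * eval v ψ
  | .imp φ ψ => MTLAlgebra.res (eval v φ) (eval v ψ)

/-- Single chain completeness of `L`: there is an `L`-chain `A` such that the theorems of `L` are
exactly the formulas which have the value 1 under all valuations into `A`. -/
def SCC (L : Logic) : Prop :=
  ∃ (A : Type u) (_ : MTLAlgebra A), (∀ x y : A, x ≤ y ∨ y ≤ x) ∧ IsAlg L A ∧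
    ∀ φ : Fm, Prov L φ ↔ ∀ v : ℕ → A, eval v φ = 1

end Pool.Agent.H539R3.SC
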