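import Pool.Agent.H539R3.SCC.Defs

/-!
# MTL and IMTL do not have single chain completeness
-/

set_option autoImplicit false

namespace Pool.Agent.H539R3.SC

open MTLAlgebra

universe u

section Alg

variable {A : Type u} [MTLAlgebra A]

theorem le_res {x y z : A} : z ≤ res x y ↔ z * x ≤ y := (le_res_iff x y z).symm

theorem le_one (x : A) : x ≤ 1 := by rw [one_eq_top]; exact le_top

theorem res_mul_le (x y : A) : res x y * x ≤ y := le_res.1 le_rfl

theorem mul_res_le (x y : A) : x * res x y ≤ y := by rw [mul_comm]; exact res_mul_le x y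

theorem mul_mono_right {x y : A} (h : x ≤ y) (z : A) : x * z ≤ y * z := by
  refine le_res.1 (h.trans ?_)
  exact le_res.2 le_rfl

theorem mul_mono {x y z w : A} (h : x ≤ y) (h' : z ≤ w) : x * z ≤ y * w :=
  (mul_mono_right h z).trans (by rw [mul_comm y z, mul_comm y w]; exact mul_mono_right h' y)

theorem mul_le_left (x y : A) : x * y ≤ x := by
  have := mul_mono (le_refl x) (le_one y)
  rwa [mul_one] at this

theorem mul_le_right (x y : A) : x * y ≤ y := by rw [mul_comm]; exact mul_le_left y x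

theorem res_eq_one {x y : A} : res x y = 1 ↔ x ≤ y := by
  constructor
  · intro h
    have := res_mul_le x y
    rwa [h, one_mul] at this
  · intro h
    refine le_antisymm (le_one _) (le_res.2 ?_)
    rwa [one_mul]

theorem one_le_res {x y : A} : 1 ≤ res x y ↔ x ≤ y := by
  rw [le_res, one_mul]

theorem pow_le_one' (x : A) (n : ℕ) : x ^ n ≤ 1 := le_one _

theorem pow_mono_left {x y : A} (h : x ≤ y) (n : ℕ) : x ^ n ≤ y ^ n := by
  induction n with
  | zero => simp
  | succ n ih => rw [pow_succ, pow_succ]; exact mul_mono ih h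

/-- A bounded residuated chain is an MTL-algebra. -/
@[reducible] def _root_.Pool.Agent.H539R3.SC.MTLAlgebra.ofChain (B : Type u) [LinearOrder B]
    [BoundedOrder B] [CommMonoid B] (res : B → B → B)
    (h : ∀ x y z : B, z * x ≤ y ↔ z ≤ res x y) (h1 : (1 : B) = ⊤) : MTLAlgebra B :=
  { (inferInstance : Lattice B), (inferInstance : BoundedOrder B),
    (inferInstance : CommMonoid B) with
    res := res
    le_res_iff := h
    one_eq_top := h1
    prelin := fun x y => by
      refine le_antisymm (by rw [h1]; exact le_top) ?_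
      rcases le_total x y with hxy | hxy
      · exact le_sup_of_le_left ((h x y 1).1 (by rwa [one_mul]))
      · exact le_sup_of_le_right ((h y x 1).1 (by rwa [one_mul])) }

/-- Soundness of the calculus. -/
theorem sound {L : Logic} {φ : Fm} (h : Prov L φ) (hA : IsAlg L A) (v : ℕ → A) :
    eval v φ = 1 := by
  induction h with
  | a1 φ ψ χ =>
    simp only [eval]
    generalize eval v φ = x
    generalize eval v ψ = y
    generalize eval v χ = z
    refine res_eq_one.2 (le_res.2 (le_res.2 ?_))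
    calc res x y * res y z * x = (x * res x y) * res y z := by ac_rfl
      _ ≤ y * res y z := mul_mono_right (mul_res_le _ _) _
      _ ≤ z := mul_res_le _ _
  | a2 φ ψ => exact res_eq_one.2 (mul_le_left _ _)
  | a3 φ ψ => exact res_eq_one.2 (le_of_eq (mul_comm _ _))
  | a4 φ ψ => exact res_eq_one.2 inf_le_left
  | a5 φ ψ => exact res_eq_one.2 (le_of_eq (inf_comm _ _))
  | a6 φ ψ => exact res_eq_one.2 (le_inf (mul_le_left _ _) (mul_res_le _ _))
  | a7a φ ψ χ =>
    simp only [eval]
    generalize eval v φ = x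
    generalize eval v ψ = y
    generalize eval v χ = z
    refine res_eq_one.2 (le_res.2 ?_)
    calc res x (res y z) * (x * y) = (x * res x (res y z)) * y := by ac_rfl
      _ ≤ res y z * y := mul_mono_right (mul_res_le _ _) _
      _ ≤ z := res_mul_le _ _
  | a7b φ ψ χ =>
    simp only [eval]
    generalize eval v φ = x
    generalize eval v ψ = y
    generalize eval v χ = z
    refine res_eq_one.2 (le_res.2 (le_res.2 ?_))
    rw [mul_assoc]
    exact res_mul_le _ _
  | a8 φ ψ χ =>
    simp only [eval]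
    generalize eval v φ = x
    generalize eval v ψ = y
    generalize eval v χ = z
    refine res_eq_one.2 (le_res.2 ?_)
    set w := res (res x y) z * res (res y x) z with hw
    have h1 : res x y ≤ res w z := by
      refine le_res.2 ?_
      calc res x y * w = (res x y * res (res x y) z) * res (res y x) z := by rw [hw]; ac_rfl
        _ ≤ z * res (res y x) z := mul_mono_right (mul_res_le _ _) _
        _ ≤ z := mul_le_left _ _
    have h2 : res y x ≤ res w z := by
      refine le_res.2 ?_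
      calc res y x * w = (res y x * res (res y x) z) * res (res x y) z := by rw [hw]; ac_rfl
        _ ≤ z * res (res x y) z := mul_mono_right (mul_res_le _ _) _
        _ ≤ z := mul_le_left _ _
    have h3 : (1 : A) ≤ res w z := by
      rw [← prelin x y]; exact sup_le h1 h2
    exact one_le_res.1 h3
  | a9 φ => exact res_eq_one.2 bot_le
  | extra h =>
    cases h with
    | inv φ => exact res_eq_one.2 (le_of_eq (hA (eval v φ)))
    | canc φ ψ χ => exact hA.1 (eval v φ) (eval v ψ) (eval v χ)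
    | pc φ => exact hA.2 (eval v φ)
  | mp _ _ ih1 ih2 =>
    simp only [eval] at ih1
    rw [ih2] at ih1
    exact le_antisymm (le_one _) (res_eq_one.1 ih1)

end Alg

/-! ## Two formulas without a common counterexample in a chain -/

/-- Powers with respect to the strong conjunction. -/
def Fm.pow (φ : Fm) : ℕ → Fm
  | 0 => Fm.bot.imp Fm.bot
  | n + 1 => (Fm.pow φ n).conj φ

theorem eval_pow {A : Type u} [MTLAlgebra A] (v : ℕ → A) (φ : Fm) (n : ℕ) :
    eval v (φ.pow n) = eval v φ ^ n := by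
  induction n with
  | zero => simp only [Fm.pow, eval, pow_zero]; exact res_eq_one.2 le_rfl
  | succ n ih => simp only [Fm.pow, eval, pow_succ, ih]

/-- The equivalence of two formulas. -/
def Fm.iff (φ ψ : Fm) : Fm := (φ.imp ψ).conj (ψ.imp φ)

/-- `x ↔ ¬x`, `y ↔ (y → x)`. -/
def fixF (x y : Fm) : Fm := (x.iff x.neg).conj (y.iff (y.imp x))

/-- `E₁`: `x ↔ ¬x`, `y ↔ (y → x)`, `x → y ^ 2`, in the variables 0, 1. -/
def E₁ : Fm := (fixF (.var 0) (.var 1)).conj ((Fm.var 0).imp ((Fm.var 1).pow 2))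

/-- `E₂`: `x ↔ ¬x`, `y ↔ (y → x)`, `¬ (x → y ^ 2) ^ 3`, in the variables 2, 3. -/
def E₂ : Fm := (fixF (.var 2) (.var 3)).conj (((Fm.var 2).imp ((Fm.var 3).pow 2)).pow 3).neg

/-- The two formulas. -/
def φ₁ : Fm := (E₁.pow 34).neg
def φ₂ : Fm := (E₂.pow 34).neg

section Chain

variable {A : Type u} [MTLAlgebra A]

/-- One half of uniqueness of the element `x = ¬x` up to `c ^ 2`. -/
theorem fix_unique {c x x' : A} (hx : c * ng x ≤ x) (hx' : c * x' ≤ ng x') (h : x ≤ x') :
    c ^ 2 * x' ≤ x := by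
  have h1 : c * x' * x' ≤ ⊥ := le_res.1 hx'
  have h2 : c * x' * x ≤ ⊥ := by
    refine le_trans ?_ h1
    exact mul_mono le_rfl h
  have h3 : c * x' ≤ ng x := le_res.2 h2
  calc c ^ 2 * x' = c * (c * x') := by rw [pow_two, mul_assoc]
    _ ≤ c * ng x := mul_mono le_rfl h3
    _ ≤ x := hx

theorem fix_unique' {c x x' y y' : A} (hx : c ^ 2 * x' ≤ x) (hy : c * res y x ≤ y)
    (hy' : c * y' ≤ res y' x') (h : y ≤ y') : c ^ 4 * y' ≤ y := by
  have h1 : c * y' * y' ≤ x' := le_res.1 hy'
  have h2 : c * y' * y ≤ x' := (mul_mono le_rfl h).trans h1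
  have h3 : c ^ 3 * y' ≤ res y x := by
    refine le_res.2 ?_
    calc c ^ 3 * y' * y = c ^ 2 * (c * y' * y) := by
          simp only [pow_succ, pow_zero, one_mul]; ac_rfl
      _ ≤ c ^ 2 * x' := mul_mono le_rfl h2
      _ ≤ x := hx
  calc c ^ 4 * y' = c * (c ^ 3 * y') := by
        rw [pow_succ' c 3, mul_assoc]
    _ ≤ c * res y x := mul_mono le_rfl h3
    _ ≤ y := hy

theorem pow_le_pow_of_le' {c : A} {m n : ℕ} (h : m ≤ n) : c ^ n ≤ c ^ m := by
  obtain ⟨k, rfl⟩ := Nat.exists_eq_add_of_le h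
  rw [pow_add]
  exact mul_le_left _ _

/-- The key inequality. -/
theorem key (tot : ∀ x y : A, x ≤ y ∨ y ≤ x) {c x x' y y' : A}
    (hx1 : c ≤ res x (ng x)) (hx2 : c ≤ res (ng x) x)
    (hy1 : c ≤ res y (res y x)) (hxy : c ≤ res x (y ^ 2))
    (hx1' : c ≤ res x' (ng x')) (hx2' : c ≤ res (ng x') x')
    (hy2' : c ≤ res (res y' x') y')
    (hxy' : c ≤ ng (res x' (y' ^ 2) ^ 3)) : c ^ 34 ≤ ⊥ := by
  rw [le_res] at hx1 hx2 hy1 hxy hx1' hx2' hy2'
  have e1 : c ^ 2 * x' ≤ x := by
    rcases tot x x' with h | h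
    · exact fix_unique hx2 hx1' h
    · exact (mul_le_right _ _).trans h
  have e2 : c ^ 2 * x ≤ x' := by
    rcases tot x x' with h | h
    · exact (mul_le_right _ _).trans h
    · exact fix_unique hx2' hx1 h
  have e3 : c ^ 4 * y ≤ y' := by
    rcases tot y y' with h | h
    · exact (mul_le_right _ _).trans h
    · exact fix_unique' e2 hy2' hy1 h
  have e4 : c ^ 11 ≤ res x' (y' ^ 2) := by
    refine le_res.2 ?_
    calc c ^ 11 * x' = c ^ 9 * (c ^ 2 * x') := by rw [← mul_assoc, ← pow_add]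
      _ ≤ c ^ 9 * x := mul_mono le_rfl e1
      _ = c ^ 8 * (c * x) := by rw [← mul_assoc, ← pow_succ]
      _ ≤ c ^ 8 * y ^ 2 := mul_mono le_rfl hxy
      _ = (c ^ 4 * y) ^ 2 := by rw [mul_pow, ← pow_mul]
      _ ≤ y' ^ 2 := pow_mono_left e3 2
  have e5 : c * res x' (y' ^ 2) ^ 3 ≤ ⊥ := le_res.1 hxy'
  calc c ^ 34 = c * (c ^ 11) ^ 3 := by rw [← pow_mul, ← pow_succ']
    _ ≤ c * res x' (y' ^ 2) ^ 3 := mul_mono le_rfl (pow_mono_left e4 3)
    _ ≤ ⊥ := e5

theorem conj_le {a b c : A} (h : c ≤ a * b) : c ≤ a ∧ c ≤ b :=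
  ⟨h.trans (mul_le_left _ _), h.trans (mul_le_right _ _)⟩

/-- In a chain one of the two formulas is a tautology. -/
theorem taut_or (tot : ∀ x y : A, x ≤ y ∨ y ≤ x) (v w : ℕ → A) :
    eval v φ₁ = 1 ∨ eval w φ₂ = 1 := by
  set e := eval v E₁ with he
  set e' := eval w E₂ with he'
  have main : ∀ c : A, c ≤ e → c ≤ e' → c ^ 34 ≤ ⊥ := by
    intro c hc hc'
    rw [he] at hc
    rw [he'] at hc'
    simp only [E₁, E₂, fixF, Fm.iff, Fm.neg, eval, eval_pow] at hc hc'
    obtain ⟨h1, h5⟩ := conj_le hc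
    obtain ⟨h1, h2⟩ := conj_le h1
    obtain ⟨h1, h3⟩ := conj_le h1
    obtain ⟨h2, h4⟩ := conj_le h2
    obtain ⟨k1, k5⟩ := conj_le hc'
    obtain ⟨k1, k2⟩ := conj_le k1
    obtain ⟨k1, k3⟩ := conj_le k1
    obtain ⟨k2, k4⟩ := conj_le k2
    exact key tot h1 h3 h2 h5 k1 k3 k4 k5
  rcases tot e e' with h | h
  · left
    have := main e le_rfl h
    simp only [φ₁, Fm.neg, eval, eval_pow]
    exact res_eq_one.2 this
  · right
    have := main e' h le_rfl
    simp only [φ₂, Fm.neg, eval, eval_pow]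
    exact res_eq_one.2 this

end Chain

/-! ## The two five-element chains -/

/-- The underlying set of the Łukasiewicz chain with five elements. -/
def Chain1 : Type := Fin 5

/-- The underlying set of the second chain with five elements. -/
def Chain2 : Type := Fin 5

instance : LinearOrder Chain1 := inferInstanceAs (LinearOrder (Fin 5))
instance : LinearOrder Chain2 := inferInstanceAs (LinearOrder (Fin 5))
instance : Fintype Chain1 := inferInstanceAs (Fintype (Fin 5))
instance : Fintype Chain2 := inferInstanceAs (Fintype (Fin 5))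
instance : DecidableEq Chain1 := inferInstanceAs (DecidableEq (Fin 5))
instance : DecidableEq Chain2 := inferInstanceAs (DecidableEq (Fin 5))

instance : BoundedOrder Chain1 where
  top := (4 : Fin 5)
  le_top := (by decide : ∀ a : Fin 5, a ≤ 4)
  bot := (0 : Fin 5)
  bot_le := (by decide : ∀ a : Fin 5, 0 ≤ a)

instance : BoundedOrder Chain2 where
  top := (4 : Fin 5)
  le_top := (by decide : ∀ a : Fin 5, a ≤ 4)
  bot := (0 : Fin 5)
  bot_le := (by decide : ∀ a : Fin 5, 0 ≤ a)

def mulTable1 : Fin 5 → Fin 5 → Fin 5 :=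
  ![![0, 0, 0, 0, 0], ![0, 0, 0, 0, 1], ![0, 0, 0, 1, 2], ![0, 0, 1, 2, 3], ![0, 1, 2, 3, 4]]

def resTable1 : Fin 5 → Fin 5 → Fin 5 :=
  ![![4, 4, 4, 4, 4], ![3, 4, 4, 4, 4], ![2, 3, 4, 4, 4], ![1, 2, 3, 4, 4], ![0, 1, 2, 3, 4]]

def mulTable2 : Fin 5 → Fin 5 → Fin 5 :=
  ![![0, 0, 0, 0, 0], ![0, 0, 0, 0, 1], ![0, 0, 0, 1, 2], ![0, 0, 1, 1, 3], ![0, 1, 2, 3, 4]]

def resTable2 : Fin 5 → Fin 5 → Fin 5 :=
  ![![4, 4, 4, 4, 4], ![3, 4, 4, 4, 4], ![2, 3, 4, 4, 4], ![1, 3, 3, 4, 4], ![0, 1, 2, 3, 4]]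

instance : MTLAlgebra Chain1 where
  mul := mulTable1
  mul_assoc := by decide
  one := (4 : Fin 5)
  one_mul := by decide
  mul_one := by decide
  mul_comm := by decide
  res := resTable1
  le_res_iff := (by decide : ∀ x y z : Fin 5, mulTable1 z x ≤ y ↔ z ≤ resTable1 x y)
  one_eq_top := rfl
  prelin := by decide

instance : MTLAlgebra Chain2 where
  mul := mulTable2
  mul_assoc := by decide
  one := (4 : Fin 5)
  one_mul := by decide
  mul_one := by decide
  mul_comm := by decide
  res := resTable2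
  le_res_iff := (by decide : ∀ x y z : Fin 5, mulTable2 z x ≤ y ↔ z ≤ resTable2 x y)
  one_eq_top := rfl
  prelin := by decide

theorem invol1 : ∀ x : Chain1, ng (ng x) = x := by decide

theorem invol2 : ∀ x : Chain2, ng (ng x) = x := by decide

/-- A valuation in the first chain. -/
def v1 : ℕ → Chain1 := fun n => if n = 0 then (2 : Fin 5) else (3 : Fin 5)

/-- A valuation in the second chain. -/
def v2 : ℕ → Chain2 := fun n => if n = 2 then (2 : Fin 5) else (3 : Fin 5)

theorem eval_E₁ : eval v1 E₁ = 1 := by decide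

theorem eval_E₂ : eval v2 E₂ = 1 := by decide

theorem not_taut1 : eval v1 φ₁ ≠ 1 := by
  simp only [φ₁, Fm.neg, eval, eval_pow, eval_E₁, one_pow]
  decide

theorem not_taut2 : eval v2 φ₂ ≠ 1 := by
  simp only [φ₂, Fm.neg, eval, eval_pow, eval_E₂, one_pow]
  decide

/-- No extension of MTL which is valid in the two chains has single chain completeness. -/
theorem not_scc {L : Logic} (h1 : IsAlg L Chain1) (h2 : IsAlg L Chain2) : ¬ SCC.{u} L := by
  rintro ⟨A, inst, tot, _, h⟩
  have k1 : ¬ ∀ v : ℕ → A, eval v φ₁ = 1 := fun hv => not_taut1 (sound ((h _).2 hv) h1 v1)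
  have k2 : ¬ ∀ v : ℕ → A, eval v φ₂ = 1 := fun hv => not_taut2 (sound ((h _).2 hv) h2 v2)
  push Not at k1 k2
  obtain ⟨v, hv⟩ := k1
  obtain ⟨w, hw⟩ := k2
  rcases taut_or tot v w with h | h
  · exact hv h
  · exact hw h

theorem not_scc_MTL : ¬ SCC.{u} .MTL := not_scc trivial trivial

theorem not_scc_IMTL : ¬ SCC.{u} .IMTL := not_scc invol1 invol2

end Pool.Agent.H539R3.SC
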