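import Pool.Agent.H539R3.SCC.Compl

/-!
# ΠMTL has single chain completeness
-/

set_option autoImplicit false

namespace Pool.Agent.H539R3.SC

universe u v

/-- Cancellative integral residuated chains. -/
class CCh (M : Type u) extends LinearOrder M, CommMonoid M where
  /-- the residuum -/
  rs : M → M → M
  le_rs : ∀ x y z : M, z * x ≤ y ↔ z ≤ rs x y
  le_one : ∀ x : M, x ≤ 1
  cancel : ∀ x y z : M, x * z ≤ y * z → x ≤ y

section NZ

open MTLAlgebra

variable {A : Type u} [MTLAlgebra A]

theorem nz_ng (tot : ∀ x y : A, x ≤ y ∨ y ≤ x) (hA : IsAlg .PiMTL A) {x : A} (hx : x ≠ ⊥) :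
    ng x = ⊥ := by
  have h : x ⊓ ng x ≤ ⊥ := res_eq_one.1 (hA.2 x)
  rcases tot x (ng x) with h' | h'
  · rw [inf_eq_left.2 h'] at h
    exact absurd (le_bot_iff.1 h) hx
  · rw [inf_eq_right.2 h'] at h
    exact le_bot_iff.1 h

theorem nz_mul (tot : ∀ x y : A, x ≤ y ∨ y ≤ x) (hA : IsAlg .PiMTL A) {x y : A} (hx : x ≠ ⊥)
    (hy : y ≠ ⊥) : x * y ≠ ⊥ := by
  intro h
  have h1 : x ≤ ng y := le_res.2 h.le
  rw [nz_ng tot hA hy] at h1
  exact hx (le_bot_iff.1 h1)

theorem nz_cancel (tot : ∀ x y : A, x ≤ y ∨ y ≤ x) (hA : IsAlg .PiMTL A) {x y z : A}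
    (hz : z ≠ ⊥) (h : x * z ≤ y * z) : x ≤ y := by
  have h1 := hA.1 x y z
  rw [nz_ng tot hA hz] at h1
  have h2 : ng (⊥ : A) = 1 := res_eq_one.2 le_rfl
  rw [h2, res_eq_one.2 h, res_eq_one] at h1
  exact one_le_res.1 (one_le_res.1 h1)

/-- The nonzero elements. -/
def NZ (A : Type u) [MTLAlgebra A] : Type u := {a : A // a ≠ ⊥}

/-- A nonzero element, as an element of `NZ A`. -/
def toNZ (a : A) (ha : a ≠ ⊥) : NZ A := ⟨a, ha⟩

open Classical in
/-- The chain of the nonzero elements of a ΠMTL-chain. -/
@[reducible] noncomputable def nzOrder (tot : ∀ x y : A, x ≤ y ∨ y ≤ x) : LinearOrder (NZ A) where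
  le x y := x.1 ≤ y.1
  le_refl x := le_refl x.1
  le_trans _ _ _ h h' := le_trans h h'
  le_antisymm _ _ h h' := Subtype.ext (le_antisymm h h')
  le_total x y := tot x.1 y.1
  toDecidableLE := Classical.decRel _

/-- The monoid of the nonzero elements of a ΠMTL-chain. -/
@[reducible] def nzMon (tot : ∀ x y : A, x ≤ y ∨ y ≤ x) (hA : IsAlg .PiMTL A)
    (h1 : (1 : A) ≠ ⊥) : CommMonoid (NZ A) where
  mul x y := ⟨x.1 * y.1, nz_mul tot hA x.2 y.2⟩
  one := ⟨1, h1⟩
  mul_assoc x y z := Subtype.ext (mul_assoc _ _ _)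
  mul_comm x y := Subtype.ext (mul_comm _ _)
  one_mul x := Subtype.ext (one_mul _)
  mul_one x := Subtype.ext (mul_one _)

/-- The nonzero elements of a ΠMTL-chain. -/
@[reducible] noncomputable def nzCCh (tot : ∀ x y : A, x ≤ y ∨ y ≤ x) (hA : IsAlg .PiMTL A)
    (h1 : (1 : A) ≠ ⊥) : CCh (NZ A) :=
  letI := nzOrder tot
  letI := nzMon tot hA h1
  { (inferInstance : LinearOrder (NZ A)), (inferInstance : CommMonoid (NZ A)) with
    rs := fun x y => ⟨res x.1 y.1, fun h => y.2 (le_bot_iff.1
      ((le_res.2 (mul_le_left y.1 x.1)).trans h.le))⟩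
    le_rs := fun x y z => MTLAlgebra.le_res_iff x.1 y.1 z.1
    le_one := fun x => (SC.le_one x.1 : x.1 ≤ 1)
    cancel := fun x y z h => (nz_cancel tot hA z.2 h : x.1 ≤ y.1) }

end NZ

/-! ## Lexicographic products -/

section Lexi

variable {ι : Type u} [LinearOrder ι] [WellFoundedLT ι] (M : ι → Type v) [∀ i, CCh (M i)]

/-- The lexicographic product. -/
def LP : Type (max u v) := Lex (∀ i, M i)

noncomputable instance : LinearOrder (LP M) := inferInstanceAs (LinearOrder (Lex (∀ i, M i)))

instance : CommMonoid (LP M) := inferInstanceAs (CommMonoid (∀ i, M i))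

variable {M}

theorem LP.lt_iff {x y : LP M} : x < y ↔ ∃ i, (∀ j, j < i → x j = y j) ∧ x i < y i := Iff.rfl

theorem LP.mul_apply (x y : LP M) (i : ι) : (x * y) i = x i * y i := rfl

theorem LP.one_apply (i : ι) : (1 : LP M) i = 1 := rfl

theorem LP.ext {x y : LP M} (h : ∀ i, x i = y i) : x = y := funext h

theorem CCh.lt_mul {N : Type v} [CCh N] {x y z : N} (h : x < y) : x * z < y * z := by
  rw [lt_iff_not_ge] at h ⊢
  exact fun h' => h (CCh.cancel _ _ _ h')

/-- In the first coordinate in which two elements differ. -/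
theorem LP.first {x y : LP M} (h : x ≠ y) : ∃ i, (∀ j, j < i → x j = y j) ∧ x i ≠ y i := by
  have h' : ∃ i, x i ≠ y i := by
    by_contra hc
    push Not at hc
    exact h (LP.ext hc)
  obtain ⟨i, hi, hmin⟩ := WellFounded.has_min (wellFounded_lt (α := ι)) {i | x i ≠ y i} h'
  refine ⟨i, fun j hj => ?_, hi⟩
  by_contra hc
  exact hmin j hc hj

open Classical in
/-- The residuum of the lexicographic product. -/
noncomputable def LP.rs (x y : LP M) : LP M := fun i =>
  if ∀ j, j < i → CCh.rs (x j) (y j) * x j = y j then CCh.rs (x i) (y i) else 1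

theorem LP.le_rs (x y z : LP M) : z * x ≤ y ↔ z ≤ LP.rs x y := by
  constructor
  · intro h
    by_cases hz : z = LP.rs x y
    · exact hz.le
    obtain ⟨i, hi, hne⟩ := LP.first hz
    refine le_of_lt (LP.lt_iff.2 ⟨i, hi, lt_of_le_of_ne ?_ hne⟩)
    by_cases hc : ∀ j, j < i → CCh.rs (x j) (y j) * x j = y j
    · have hr : LP.rs x y i = CCh.rs (x i) (y i) := if_pos hc
      rw [hr, ← CCh.le_rs]
      by_contra hlt
      push Not at hlt
      refine absurd h (not_le_of_gt (LP.lt_iff.2 ⟨i, fun j hj => ?_, hlt⟩))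
      have hr' : LP.rs x y j = CCh.rs (x j) (y j) :=
        if_pos fun k hk => hc k (hk.trans hj)
      rw [LP.mul_apply, hi j hj, hr', hc j hj]
    · have hr : LP.rs x y i = 1 := if_neg hc
      rw [hr]
      exact CCh.le_one _
  · intro h
    by_contra hlt
    push Not at hlt
    obtain ⟨i, hi, hlt⟩ := LP.lt_iff.1 hlt
    have hz : ∀ j, j < i → z j = CCh.rs (x j) (y j) := by
      intro j hj
      have h1 := hi j hj
      rw [LP.mul_apply] at h1
      refine le_antisymm ((CCh.le_rs _ _ _).1 h1.ge) ?_
      refine CCh.cancel _ _ (x j) ?_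
      rw [← h1]
      exact (CCh.le_rs _ _ _).2 le_rfl
    have hc : ∀ j, j < i → CCh.rs (x j) (y j) * x j = y j := by
      intro j hj
      rw [← hz j hj]
      exact (hi j hj).symm
    have hr : ∀ j, j ≤ i → LP.rs x y j = CCh.rs (x j) (y j) := fun j hj =>
      if_pos fun k hk => hc k (hk.trans_le hj)
    have hzi : z i ≤ CCh.rs (x i) (y i) := by
      by_contra hcon
      push Not at hcon
      refine absurd h (not_le_of_gt (LP.lt_iff.2 ⟨i, fun j hj => ?_, ?_⟩))
      · rw [hr j hj.le, hz j hj]
      · rw [hr i le_rfl]; exact hcon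
    exact absurd ((CCh.le_rs _ _ _).2 hzi) (not_le_of_gt hlt)

noncomputable instance : CCh (LP M) :=
  { (inferInstance : LinearOrder (LP M)), (inferInstance : CommMonoid (LP M)) with
    rs := LP.rs
    le_rs := LP.le_rs
    le_one := fun x => by
      by_cases hx : x = 1
      · exact hx.le
      obtain ⟨i, hi, hne⟩ := LP.first hx
      exact le_of_lt (LP.lt_iff.2 ⟨i, hi, lt_of_le_of_ne (CCh.le_one _) hne⟩)
    cancel := fun x y z h => by
      by_contra hlt
      push Not at hlt
      obtain ⟨i, hi, hlt⟩ := LP.lt_iff.1 hlt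
      refine absurd h (not_le_of_gt (LP.lt_iff.2 ⟨i, fun j hj => ?_, ?_⟩))
      · rw [LP.mul_apply, LP.mul_apply, hi j hj]
      · exact CCh.lt_mul hlt }

open Classical in
/-- The element with coordinate `a` at `i` and coordinates `1` elsewhere. -/
noncomputable def LP.single (i : ι) (a : M i) : LP M := Function.update (1 : ∀ i, M i) i a

theorem LP.single_same (i : ι) (a : M i) : LP.single i a i = a := by
  simp [LP.single]

theorem LP.single_ne {i j : ι} (h : j ≠ i) (a : M i) : LP.single i a j = 1 := by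
  simp [LP.single, h]

theorem LP.single_mul (i : ι) (a b : M i) :
    LP.single i (a * b) = LP.single i a * LP.single i b := by
  refine LP.ext fun j => ?_
  rw [LP.mul_apply]
  by_cases h : j = i
  · subst h; simp only [LP.single_same]
  · simp only [LP.single_ne h, mul_one]

theorem LP.single_one (i : ι) : LP.single i (1 : M i) = 1 := by
  refine LP.ext fun j => ?_
  by_cases h : j = i
  · subst h; simp only [LP.single_same]; rfl
  · simp only [LP.single_ne h]; rfl

theorem LP.single_le (i : ι) {a b : M i} : LP.single i a ≤ LP.single i b ↔ a ≤ b := by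
  have key : ∀ {a b : M i}, a < b → LP.single i a < LP.single i b := by
    intro a b h
    refine LP.lt_iff.2 ⟨i, fun j hj => ?_, ?_⟩
    · rw [LP.single_ne hj.ne, LP.single_ne hj.ne]
    · rwa [LP.single_same, LP.single_same]
  constructor
  · intro h
    by_contra hc
    push Not at hc
    exact absurd h (not_le_of_gt (key hc))
  · intro h
    rcases h.eq_or_lt with h | h
    · rw [h]
    · exact (key h).le

theorem CCh.rs_one {N : Type v} [CCh N] : CCh.rs (1 : N) 1 = 1 :=
  le_antisymm (CCh.le_one _) ((CCh.le_rs _ _ _).1 (by rw [one_mul]))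

theorem LP.single_rs (i : ι) (a b : M i) :
    LP.single i (CCh.rs a b) = CCh.rs (LP.single i a) (LP.single i b) := by
  refine LP.ext fun j => ?_
  show _ = LP.rs (LP.single i a) (LP.single i b) j
  rcases lt_trichotomy j i with h | h | h
  · rw [LP.single_ne h.ne]
    unfold LP.rs
    rw [LP.single_ne h.ne, LP.single_ne h.ne, CCh.rs_one, ite_self]
  · subst h
    rw [LP.single_same]
    unfold LP.rs
    rw [if_pos, LP.single_same, LP.single_same]
    intro k hk
    rw [LP.single_ne hk.ne, LP.single_ne hk.ne, CCh.rs_one, one_mul]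
  · rw [LP.single_ne h.ne']
    unfold LP.rs
    rw [LP.single_ne h.ne', LP.single_ne h.ne', CCh.rs_one, ite_self]

end Lexi

/-! ## Adding a zero -/

section Zero

variable (M : Type u) [CCh M]

/-- The bounds of `M` with an added zero. -/
instance zBdd : BoundedOrder (WithZero M) :=
  letI : OrderTop M := { top := 1, le_top := CCh.le_one }
  inferInstance

variable {M}

/-- The residuum of `M` with an added zero. -/
def zrs : WithZero M → WithZero M → WithZero M
  | none, _ => 1
  | some _, none => 0
  | some a, some b => ((CCh.rs a b : M) : WithZero M)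

theorem zrs_zero (y : WithZero M) : zrs 0 y = 1 := rfl

theorem zrs_coe_zero (a : M) : zrs (a : WithZero M) 0 = 0 := rfl

theorem zrs_coe (a b : M) : zrs (a : WithZero M) b = ((CCh.rs a b : M) : WithZero M) := rfl

theorem z_le_one (x : WithZero M) : x ≤ 1 := le_top (α := WithZero M)

/-- The ΠMTL-chain obtained by adding a zero. -/
noncomputable instance zAlg : MTLAlgebra (WithZero M) :=
  MTLAlgebra.ofChain (WithZero M) zrs (fun x y z => by
    induction x using WithZero.recZeroCoe with
    | zero =>
      rw [mul_zero, zrs_zero]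
      exact ⟨fun _ => z_le_one z, fun _ => bot_le⟩
    | coe a =>
      induction y using WithZero.recZeroCoe with
      | zero =>
        rw [zrs_coe_zero]
        constructor
        · intro h
          have h' : z * (a : WithZero M) = 0 := le_antisymm h bot_le
          rcases mul_eq_zero.1 h' with h' | h'
          · rw [h']
          · exact absurd h' WithZero.coe_ne_zero
        · intro h
          have h' : z = 0 := le_antisymm h bot_le
          rw [h', zero_mul]
      | coe b =>
        induction z using WithZero.recZeroCoe with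
        | zero =>
          rw [zero_mul]
          exact ⟨fun _ => bot_le, fun _ => bot_le⟩
        | coe c =>
          rw [zrs_coe, ← WithZero.coe_mul, WithZero.coe_le_coe, WithZero.coe_le_coe]
          exact CCh.le_rs a b c) rfl

theorem z_ng_coe (a : M) : ng (a : WithZero M) = 0 := rfl

theorem z_ng_zero : ng (0 : WithZero M) = 1 := rfl

theorem z_bot : (⊥ : WithZero M) = 0 := rfl

theorem z_isAlg : IsAlg .PiMTL (WithZero M) := by
  refine ⟨fun x y z => ?_, fun x => ?_⟩
  · rw [res_eq_one]
    induction z using WithZero.recZeroCoe with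
    | zero =>
      rw [z_ng_zero, ← WithZero.coe_one, z_ng_coe]
      exact bot_le
    | coe c =>
      rw [z_ng_coe, z_ng_zero, one_le_res, le_res]
      set w := MTLAlgebra.res (x * (c : WithZero M)) (y * (c : WithZero M)) with hw
      have h1 : w * (x * (c : WithZero M)) ≤ y * (c : WithZero M) := by
        rw [hw]; exact res_mul_le _ _
      rw [← mul_assoc] at h1
      generalize w * x = t at h1
      induction t using WithZero.recZeroCoe with
      | zero => exact bot_le
      | coe t =>
        induction y using WithZero.recZeroCoe with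
        | zero =>
          rw [zero_mul, ← WithZero.coe_mul] at h1
          exact absurd (le_antisymm h1 bot_le) WithZero.coe_ne_zero
        | coe b =>
          rw [← WithZero.coe_mul, ← WithZero.coe_mul, WithZero.coe_le_coe] at h1
          exact WithZero.coe_le_coe.2 (CCh.cancel _ _ _ h1)
  · rw [res_eq_one]
    induction x using WithZero.recZeroCoe with
    | zero => exact inf_le_left
    | coe a => rw [z_ng_coe]; exact inf_le_right

end Zero

/-! ## The chain -/

section Main

open Classical in
/-- ΠMTL enjoys single chain completeness. -/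
theorem scc_PiMTL : SCC.{u} .PiMTL := by
  set ι : Type u := ULift.{u} {φ : Fm // ¬ Prov .PiMTL φ} with hι
  choose A inst tot hA v hv using
    fun i : ι => complete (L := .PiMTL) i.down.2
  have h1 : ∀ i, (1 : A i) ≠ ⊥ := by
    intro i h
    refine hv i (le_antisymm (le_one _) ?_)
    rw [h]; exact bot_le
  let _ : ∀ i, CCh (NZ (A i)) := fun i => nzCCh (tot i) (hA i) (h1 i)
  let _ : LinearOrder ι := linearOrderOfSTO (WellOrderingRel : ι → ι → Prop)
  have _ : WellFoundedLT ι := ⟨(WellOrderingRel.isWellOrder (α := ι)).wf⟩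
  refine ⟨WithZero (LP fun i => NZ (A i)), inferInstance, fun x y => le_total x y, z_isAlg, fun φ =>
    ⟨fun h v => sound h z_isAlg v, fun h => ?_⟩⟩
  by_contra hφ
  set i : ι := ⟨⟨φ, hφ⟩⟩ with hi
  -- the embedding
  let e : A i → WithZero (LP fun i => NZ (A i)) := fun a =>
    if ha : a = ⊥ then 0 else ((LP.single i (toNZ a ha) : LP fun i => NZ (A i)) :
      WithZero (LP fun i => NZ (A i)))
  have e0 : e ⊥ = 0 := dif_pos rfl
  have e1 : ∀ {a : A i} (ha : a ≠ ⊥), e a = ((LP.single i (toNZ a ha) :
      LP fun i => NZ (A i)) : WithZero (LP fun i => NZ (A i))) := fun ha => dif_neg ha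
  have ele : ∀ {a b : A i}, a ≤ b ↔ e a ≤ e b := by
    intro a b
    by_cases ha : a = ⊥
    · subst ha; rw [e0]; exact ⟨fun _ => bot_le, fun _ => bot_le⟩
    by_cases hb : b = ⊥
    · subst hb
      rw [e0, e1 ha]
      exact ⟨fun h => absurd (le_bot_iff.1 h) ha,
        fun h => absurd (le_antisymm h bot_le) WithZero.coe_ne_zero⟩
    rw [e1 ha, e1 hb, WithZero.coe_le_coe, LP.single_le]
    exact Iff.rfl
  have emul : ∀ a b : A i, e (a * b) = e a * e b := by
    intro a b
    by_cases ha : a = ⊥
    · have : a * b = ⊥ := by rw [ha]; exact le_bot_iff.1 (mul_le_left _ _)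
      rw [this, ha, e0, zero_mul]
    by_cases hb : b = ⊥
    · have : a * b = ⊥ := by rw [hb]; exact le_bot_iff.1 (mul_le_right _ _)
      rw [this, hb, e0, mul_zero]
    rw [e1 ha, e1 hb, e1 (nz_mul (tot i) (hA i) ha hb), ← WithZero.coe_mul, ← LP.single_mul]
    rfl
  have eone : e 1 = 1 := by
    rw [e1 (h1 i)]
    have : toNZ 1 (h1 i) = (1 : NZ (A i)) := rfl
    rw [this, LP.single_one]
    rfl
  have eres : ∀ a b : A i, e (MTLAlgebra.res a b) = MTLAlgebra.res (e a) (e b) := by
    intro a b
    by_cases ha : a = ⊥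
    · have : MTLAlgebra.res a b = 1 := res_eq_one.2 (by rw [ha]; exact bot_le)
      rw [this, ha, e0, eone]
      rfl
    by_cases hb : b = ⊥
    · have : MTLAlgebra.res a b = ⊥ := by rw [hb]; exact nz_ng (tot i) (hA i) ha
      rw [this, hb, e0, e1 ha]
      rfl
    have hab : MTLAlgebra.res a b ≠ ⊥ := fun h => hb (le_bot_iff.1
      ((le_res.2 (mul_le_left b a)).trans h.le))
    rw [e1 ha, e1 hb, e1 hab]
    have : toNZ (MTLAlgebra.res a b) hab = CCh.rs (toNZ a ha) (toNZ b hb) := rfl
    rw [this, LP.single_rs]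
    rfl
  have einf : ∀ a b : A i, e (a ⊓ b) = e a ⊓ e b := by
    intro a b
    rcases tot i a b with h | h
    · rw [inf_eq_left.2 h, inf_eq_left.2 (ele.1 h)]
    · rw [inf_eq_right.2 h, inf_eq_right.2 (ele.1 h)]
  have eev : ∀ ψ : Fm, eval (fun n => e (v i n)) ψ = e (eval (v i) ψ) := by
    intro ψ
    induction ψ with
    | var n => rfl
    | bot => exact e0.symm
    | and φ ψ ih1 ih2 => simp only [eval, ih1, ih2, einf]
    | conj φ ψ ih1 ih2 => simp only [eval, ih1, ih2, emul]
    | imp φ ψ ih1 ih2 => simp only [eval, ih1, ih2, eres]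
  have h2 := h (fun n => e (v i n))
  rw [eev, ← eone] at h2
  exact hv i (le_antisymm (le_one _) (ele.2 h2.ge))

end Main

end Pool.Agent.H539R3.SC
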